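import Pool.Agent.helper91.RB.Spec2

set_option autoImplicit false

namespace Pool.Agent.RB

open NumberField IsDedekindDomain Module
open scoped nonZeroDivisors Real Classical

theorem CNV_one (z : ℂ) (hz : ‖z‖ < 1 / 2) : ‖(1 - z)⁻¹ - 1‖ ≤ 2 * ‖z‖ := by
  have h1 : 1 / 2 ≤ ‖1 - z‖ := by
    have h2 := norm_sub_norm_le (1 : ℂ) z
    rw [norm_one] at h2
    linarith
  have h0 : (1 - z) ≠ 0 := by
    intro h
    rw [h, norm_zero] at h1
    linarith
  have h3 : (1 - z)⁻¹ - 1 = z * (1 - z)⁻¹ := by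
    field_simp
    ring
  rw [h3, norm_mul, norm_inv, mul_comm]
  have h4 : ‖1 - z‖⁻¹ ≤ 2 := by
    have h5 : ‖1 - z‖⁻¹ ≤ (1 / 2 : ℝ)⁻¹ := inv_anti₀ (by norm_num) h1
    norm_num at h5
    exact h5
  exact mul_le_mul_of_nonneg_right h4 (norm_nonneg _)

/-- Convergence of Euler products. -/
theorem CNV (hEUL : EUL_stmt) : CNV_stmt := by
  intro K _ _ s hs a ha
  have hsum := (hEUL K s hs).1
  have hz : ∀ P : HOS K, ‖a P * (nm P : ℂ) ^ (-s)‖ ≤ ‖(nm P : ℂ) ^ (-s)‖ := by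
    intro P
    rw [norm_mul]
    calc ‖a P‖ * ‖(nm P : ℂ) ^ (-s)‖ ≤ 1 * ‖(nm P : ℂ) ^ (-s)‖ :=
          mul_le_mul_of_nonneg_right (ha P) (norm_nonneg _)
      _ = ‖(nm P : ℂ) ^ (-s)‖ := one_mul _
  have hev : ∀ᶠ P : HOS K in Filter.cofinite, ‖(nm P : ℂ) ^ (-s)‖ < 1 / 2 :=
    hsum.tendsto_cofinite_zero.eventually (gt_mem_nhds (by norm_num))
  have hg : Summable fun P : HOS K => ‖(1 - a P * (nm P : ℂ) ^ (-s))⁻¹ - 1‖ := by
    refine Summable.of_norm_bounded_eventually (hsum.mul_left 2) ?_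
    filter_upwards [hev] with P hP
    rw [norm_norm]
    refine (CNV_one _ ((hz P).trans_lt hP)).trans ?_
    exact mul_le_mul_of_nonneg_left (hz P) (by norm_num)
  have h2 := multipliable_one_add_of_summable hg
  simpa using h2

end Pool.Agent.RB
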