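import Pool.Agent.helper91.RB.Spec5

/-!
# Project rb (MP_24e2e7_nt), row rb:ORZ (properties of `ordZ`)
-/

set_option autoImplicit false

namespace Pool.Agent.RB

open NumberField IsDedekindDomain Module
open scoped nonZeroDivisors Real Classical IsMulCommutative

theorem ORZ_ord_mul {K : Type} [Field K] [NumberField K] (P : HOS K) (x y : K) (hx : x ≠ 0) (hy : y ≠ 0) :
    ord P (x * y) = ord P x + ord P y := by
  have h1 : P.valuation K x ≠ 0 := (Valuation.ne_zero_iff _).mpr hx
  have h2 : P.valuation K y ≠ 0 := (Valuation.ne_zero_iff _).mpr hy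
  unfold ord
  rw [map_mul, WithZero.log_mul h1 h2, neg_add]

theorem ORZ_ord_one {K : Type} [Field K] [NumberField K] (P : HOS K) : ord P (1 : K) = 0 := by
  unfold ord
  rw [map_one, WithZero.log_one, neg_zero]

theorem ORZ_ord_inv {K : Type} [Field K] [NumberField K] (P : HOS K) (x : K) : ord P x⁻¹ = - ord P x := by
  unfold ord
  rw [map_inv₀, WithZero.log_inv]

theorem ORZ (hORD : ORD_stmt) : ORZ_stmt := by
  intro F H _ _ _ _ _ _ w
  refine ⟨?_, ?_, ?_, ?_, ?_⟩
  · intro x y hx hy
    unfold ordZ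
    rw [← Finset.sum_add_distrib]
    apply Finset.sum_congr rfl
    intro σ _
    rw [map_mul, ORZ_ord_mul w (σ x) (σ y) (by simpa using hx) (by simpa using hy), MonoidAlgebra.single_add]
  · unfold ordZ
    apply Finset.sum_eq_zero
    intro σ _
    rw [map_one, ORZ_ord_one, MonoidAlgebra.single_zero]
  · intro x
    unfold ordZ
    rw [← Finset.sum_neg_distrib]
    apply Finset.sum_congr rfl
    intro σ _
    rw [map_inv₀, ORZ_ord_inv, MonoidAlgebra.single_neg]
  · intro ρ x
    unfold ordZ
    rw [Finset.mul_sum]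
    refine Fintype.sum_equiv (Equiv.mulRight ρ) _ _ ?_
    intro σ
    rw [MonoidAlgebra.single_mul_single, one_mul, Equiv.coe_mulRight, mul_inv_rev, mul_inv_cancel_left]
    rfl
  · intro x τ
    have h1 := ((hORD H).2.2.2.2.2.1 (τ : H ≃+* H) w (τ⁻¹ x)).2
    have h2 : (τ : H ≃+* H) (τ⁻¹ x) = x := τ.apply_symm_apply x
    rw [h2] at h1
    rw [h1]
    unfold ordZ
    rw [MonoidAlgebra.coeff_sum, Finsupp.finsetSum_apply]
    rw [Finset.sum_eq_single τ⁻¹]
    · rw [MonoidAlgebra.coeff_single, inv_inv, Finsupp.single_eq_same]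
    · intro σ _ hσ
      rw [MonoidAlgebra.coeff_single, Finsupp.single_eq_of_ne]
      intro h3
      apply hσ
      rw [h3, inv_inv]
    · intro h3
      exact absurd (Finset.mem_univ _) h3

end Pool.Agent.RB
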