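import Pool.Agent.helper91.RB.Spec5

/-!
# Project rb (MP_24e2e7_nt), row rb:UNT (unramified primes)
-/

set_option autoImplicit false

namespace Pool.Agent.RB

open NumberField IsDedekindDomain Module
open scoped nonZeroDivisors Real Classical IsMulCommutative

/-- an unramified prime: the order of the elements of the ground field does not change -/
theorem UNT_ord (F H : Type) [Field F] [NumberField F] [Field H] [NumberField H] [Algebra F H] (P : HOS H)
    (h : Algebra.IsUnramifiedAt (𝓞 F) P.asIdeal) (x : F) :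
    ord P (algebraMap F H x) = ord (P.under (𝓞 F)) x := by
  have hlies : P.asIdeal.LiesOver (P.under (𝓞 F)).asIdeal := ⟨rfl⟩
  have h1 : P.asIdeal.ramificationIdx (𝓞 F) = 1 := Ideal.ramificationIdx_eq_one P.asIdeal (𝓞 F)
  have h2 := Ideal.ramificationIdx'_eq_ramificationIdx (P.under (𝓞 F)).asIdeal P.asIdeal
    (P.under (𝓞 F)).ne_bot
  have h3 := HeightOneSpectrum.valuation_liesOver H (P.under (𝓞 F)) P x
  rw [h2, h1, pow_one] at h3
  unfold ord
  rw [h3]

theorem UNT_aut (k K : Type) [Field k] [NumberField k] [Field K] [NumberField K] [Algebra k K]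
    [Algebra.IsQuadraticExtension k K] : ∃ c : K ≃ₐ[k] K, c ≠ 1 := by
  have h1 : Nat.card (K ≃ₐ[k] K) = 2 := by
    rw [IsGalois.card_aut_eq_finrank, Algebra.IsQuadraticExtension.finrank_eq_two k K]
  have h2 : Nontrivial (K ≃ₐ[k] K) := by
    rw [← Finite.one_lt_card_iff_nontrivial, h1]
    norm_num
  exact exists_ne 1

theorem UNT (hTYP : TYP_stmt) (hVLU : VLU_stmt) : UNT_stmt := by
  intro F k K H _ _ _ _ _ _ _ _ _ _ _ _ _ _ _ _ _ p hun q hq hty
  obtain ⟨c, hc⟩ := UNT_aut k K
  have h0 : ∃ P : HOS K, P.under (𝓞 k) = q ∧ ∀ x : k, ord P (algebraMap k K x) = 2 * ord q x := by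
    rcases hTYP k K c hc q with ⟨h1, _⟩ | ⟨h1, _⟩ | ⟨_, P, h2, _, _, h3⟩
    · rw [hty] at h1
      exact absurd h1 (by norm_num)
    · rw [hty] at h1
      exact absurd h1 (by norm_num)
    · refine ⟨P, ?_, h3⟩
      have h4 : P ∈ {R : HOS K | R.under (𝓞 k) = q} := by
        rw [h2]
        rfl
      exact h4
  obtain ⟨P, hP, hPx⟩ := h0
  obtain ⟨P', hP'⟩ := (hVLU K H).2.1 P
  obtain ⟨e, _, he⟩ := (hVLU K H).1 P'
  have h5 : P'.under (𝓞 F) = p := by
    rw [← (hVLU K H).2.2.2 F P', hP', ← (hVLU k K).2.2.2 F P, hP, hq]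
  obtain ⟨x, hx⟩ := HeightOneSpectrum.valuation_exists_uniformizer F p
  have h6 : ord p x = 1 := by
    unfold ord
    rw [hx, WithZero.log_exp, neg_neg]
  have h7 := UNT_ord F H P' (hun P' h5) x
  rw [h5, h6] at h7
  have h8 := (he (algebraMap k K (algebraMap F k x))).2.1
  rw [← IsScalarTower.algebraMap_apply F k K, ← IsScalarTower.algebraMap_apply F K H, h7, hP'] at h8
  rw [IsScalarTower.algebraMap_apply F k K, hPx] at h8
  have h9 : (1 : ℤ) = 2 * ((e : ℤ) * ord q (algebraMap F k x)) := by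
    rw [h8]
    ring
  omega

end Pool.Agent.RB
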